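import Pool.Agent.TH838.PS.Core

set_option autoImplicit false

/-!
Dynamical Mordell-Lang for linear systems `Q(n) x(n+1) = N(n) x(n)`.
-/

namespace Pool.Agent.TH838.PT

open MvPolynomial Pool.Agent.H936R2 Pool.Agent.H905R3.DML Pool.Agent.H905R3.DML.Core
  Pool.Agent.TH838.DS Pool.Agent.TH838.PR Pool.Agent.TH838.PS

/-- coordinates: time, scale, constants, sequences -/
abbrev Iz (r K : ℕ) : Type := Option (Option ((Option (Fin r × Fin r) × Fin K) ⊕ Fin r))

section

variable {r K : ℕ}

abbrev zt : Iz r K := none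
abbrev zz : Iz r K := some none
abbrev zw (w : Option (Fin r × Fin r)) (k : Fin K) : Iz r K := some (some (Sum.inl (w, k)))
abbrev zx (i : Fin r) : Iz r K := some (some (Sum.inr i))

/-- the polynomial `∑ c_{wk} t^k` -/
noncomputable def pol (w : Option (Fin r × Fin r)) : MvPolynomial (Iz r K) ℤ :=
  ∑ k : Fin K, X (zw w k) * X zt ^ (k : ℕ)

/-- the self-map -/
noncomputable def SF : Iz r K → MvPolynomial (Iz r K) ℤ
  | none => X zt + 1
  | some none => pol none * X zz
  | some (some (Sum.inl e)) => X (some (some (Sum.inl e)))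
  | some (some (Sum.inr i)) => ∑ j : Fin r, pol (some (i, j)) * X (zx j)

end

theorem det_sys {r K : ℕ} {k : Type} [Field k]
    (x : Iz r K → k) (ha : eval x (map (Int.castRingHom k) (pol none)) ≠ 0)
    (hb : (Matrix.of fun i j : Fin r =>
      eval x (map (Int.castRingHom k) (pol (some (i, j))))).det ≠ 0) :
    (jac (overR k (SF (r := r) (K := K))) x).det ≠ 0 := by
  classical
  intro h
  obtain ⟨v, hv0, hv⟩ := Matrix.exists_mulVec_eq_zero_iff.2 h
  apply hv0
  have e : ∀ i, Dv x v (overR k SF i) = 0 := fun i => congrFun hv i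
  have ht : v zt = 0 := by
    have h1 := e zt
    simp only [overR, SF, map_add, map_X, map_one, Dv_add, Dv_X, Dv_one, add_zero] at h1
    exact h1
  have hw : ∀ q, v (some (some (Sum.inl q))) = 0 := by
    intro q
    have h1 := e (some (some (Sum.inl q)))
    simp only [overR, SF, map_X, Dv_X] at h1
    exact h1
  have hpl : ∀ w, Dv x v (map (Int.castRingHom k) (pol w)) = 0 := by
    intro w
    simp only [pol, map_sum, map_mul, map_pow, map_X]
    rw [Dv_sum]
    refine Finset.sum_eq_zero fun j _ => ?_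
    rw [Dv_mul, Dv_X, Dv_pow_zero x v (by rw [Dv_X, ht]), hw, mul_zero, mul_zero, add_zero]
  have hz : v zz = 0 := by
    have h1 := e zz
    simp only [overR, SF, map_mul, map_X, Dv_mul, Dv_X, hpl, mul_zero, add_zero] at h1
    exact (mul_eq_zero.1 h1).resolve_left ha
  have hx : (fun j : Fin r => v (zx j)) = 0 := by
    apply Matrix.eq_zero_of_mulVec_eq_zero hb
    funext i
    have h1 := e (zx i)
    simp only [overR, SF, map_sum, map_mul, map_X, Dv_sum, Dv_mul, Dv_X, hpl, mul_zero,
      add_zero] at h1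
    exact h1
  funext i
  rcases i with _ | _ | q | j
  · exact ht
  · exact hz
  · exact hw q
  · exact congrFun hx j

section orbit

variable {r K : ℕ}

theorem eval_pol {k : Type} [CommRing k] (w : Option (Fin r × Fin r)) (x : Iz r K → k) :
    eval x (map (Int.castRingHom k) (pol w)) = wl (fun k => x (zw w k)) (x zt) := by
  simp only [pol, wl, map_sum, map_mul, map_pow, map_X, eval_X]

/-- the points of the orbit -/
noncomputable def pz (l : ℂ) (γ : Option (Fin r × Fin r) → Fin K → ℂ)
    (s : Fin r → ℕ → ℂ) (n0 n : ℕ) : Iz r K → ℂ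
  | none => ((n0 + n : ℕ) : ℂ)
  | some none => l * ∏ k ∈ Finset.range n, wl (γ none) ((n0 + k : ℕ) : ℂ)
  | some (some (Sum.inl e)) => γ e.1 e.2
  | some (some (Sum.inr i)) =>
      l * (∏ k ∈ Finset.range n, wl (γ none) ((n0 + k : ℕ) : ℂ)) * s i (n0 + n)

theorem orbit_sys (l : ℂ) (γ : Option (Fin r × Fin r) → Fin K → ℂ)
    (s : Fin r → ℕ → ℂ) (n0 : ℕ)
    (hrec : ∀ i n, n0 ≤ n → wl (γ none) (n : ℂ) * s i (n + 1) =
      ∑ j : Fin r, wl (γ (some (i, j))) (n : ℂ) * s j n) (n : ℕ) :
    (cmap SF)^[n] (pz l γ s n0 0) = pz l γ s n0 n := by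
  induction n with
  | zero => rfl
  | succ n ih =>
    rw [Function.iterate_succ_apply', ih]
    have hp : ∀ w, eval (pz l γ s n0 n) (map (Int.castRingHom ℂ) (pol w)) =
        wl (γ w) ((n0 + n : ℕ) : ℂ) := fun w => eval_pol w _
    funext i
    rcases i with _ | _ | q | i
    · simp only [cmap, SF, map_add, map_X, map_one, eval_X, pz]
      push_cast
      ring
    · simp only [cmap, SF, map_mul, map_X, eval_X]
      rw [hp]
      simp only [pz]
      rw [Finset.prod_range_succ]
      ring
    · simp only [cmap, SF, map_X, eval_X, pz]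
    · simp only [cmap, SF, map_sum, map_mul, map_X, eval_X, hp]
      simp only [pz]
      have h := hrec i (n0 + n) (Nat.le_add_right _ _)
      rw [Finset.prod_range_succ]
      have e1 : n0 + (n + 1) = n0 + n + 1 := by ring
      rw [e1]
      have e3 : ∑ j : Fin r, wl (γ (some (i, j))) ((n0 + n : ℕ) : ℂ) *
          (l * (∏ k ∈ Finset.range n, wl (γ none) ((n0 + k : ℕ) : ℂ)) * s j (n0 + n)) =
          (l * ∏ k ∈ Finset.range n, wl (γ none) ((n0 + k : ℕ) : ℂ)) *
            ∑ j : Fin r, wl (γ (some (i, j))) ((n0 + n : ℕ) : ℂ) * s j (n0 + n) := by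
        rw [Finset.mul_sum]
        refine Finset.sum_congr rfl fun i' _ => ?_
        ring
      rw [e3, ← h]
      ring

end orbit

/-! ### Homogenisation -/

section hom

variable {r K : ℕ}

noncomputable def hs (G : MvPolynomial (Option (Fin r)) ℂ) :
    MvPolynomial (Iz r K) ℂ :=
  ∑ e ∈ G.support, C (coeff e G) * X zt ^ (e none) *
    (∏ q : Fin r, X (zx q) ^ (e (some q))) *
      X zz ^ (G.support.sup (fun e => ∑ q, e (some q)) - ∑ q, e (some q))

theorem eval_hs (G : MvPolynomial (Option (Fin r)) ℂ) (x : Iz r K → ℂ)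
    (u : Fin r → ℂ) (hx : ∀ q, x (zx q) = x zz * u q) :
    eval x (hs G) = x zz ^ (G.support.sup fun e => ∑ q, e (some q)) *
      eval (fun o => o.elim (x zt) u) G := by
  have hG := eval_eq' (fun o => Option.elim o (x zt) u) G
  rw [hG, Finset.mul_sum]
  simp only [hs, map_sum, map_mul, eval_C, map_pow, eval_X, map_prod]
  refine Finset.sum_congr rfl fun e he => ?_
  rw [Fintype.prod_option]
  simp only [Option.elim]
  have h1 : ∏ q : Fin r, x (zx q) ^ (e (some q)) =
      x zz ^ (∑ q, e (some q)) * ∏ q, u q ^ (e (some q)) := by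
    rw [← Finset.prod_pow_eq_pow_sum, ← Finset.prod_mul_distrib]
    refine Finset.prod_congr rfl fun q _ => ?_
    rw [hx, mul_pow]
  have h2 : ∑ q, e (some q) ≤ G.support.sup (fun e => ∑ q, e (some q)) :=
    Finset.le_sup (f := fun e : Option (Fin r) →₀ ℕ => ∑ q, e (some q)) he
  have h3 : x zz ^ (G.support.sup fun e => ∑ q, e (some q)) =
      x zz ^ (∑ q, e (some q)) *
        x zz ^ (G.support.sup (fun e => ∑ q, e (some q)) - ∑ q, e (some q)) := by
    rw [← pow_add]
    congr 1
    omega
  rw [h1, h3]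
  ring

end hom

/-! ### The criterion -/

theorem criterion_sys {p : ℕ} [hp : Fact p.Prime] {r K : ℕ}
    (γ : Option (Fin r × Fin r) → Fin K → ℂ) (τ : ℂ →+* PadicAlgCl p)
    (hγ : ∀ i k, ‖τ (γ i k)‖ ≤ 1)
    (ha : ∀ n : ℕ, ‖τ (wl (γ none) (n : ℂ))‖ = 1)
    (hb : ∀ n : ℕ, ‖τ (Matrix.of fun i j : Fin r => wl (γ (some (i, j))) (n : ℂ)).det‖ = 1)
    (s : Fin r → ℕ → ℂ) (n0 : ℕ)
    (hrec : ∀ i n, n0 ≤ n → wl (γ none) (n : ℂ) * s i (n + 1) =
      ∑ j : Fin r, wl (γ (some (i, j))) (n : ℂ) * s j n)
    (G : MvPolynomial (Option (Fin r)) ℂ) :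
    ∃ T : Finset (ℕ × ℕ), {n : ℕ | eval (fun o => o.elim (n : ℂ) fun i => s i n) G = 0} =
      {k : ℕ | ∃ q ∈ T, ∃ t : ℕ, k = q.1 * t + q.2} := by
  classical
  obtain ⟨l, hl0, hl1, hl⟩ := exists_scale τ (fun i : Fin r => s i n0)
  have hα : ∀ i, ‖τ (pz l γ s n0 0 i)‖ ≤ 1 := by
    intro i
    rcases i with _ | _ | q | q
    · simp only [pz, add_zero, map_natCast]
      exact (((n0 : ℕ) : unitBall (PadicAlgCl p))).2
    · simp only [pz, Finset.range_zero, Finset.prod_empty, mul_one]
      exact hl1
    · simp only [pz]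
      exact hγ q.1 q.2
    · simp only [pz, Finset.range_zero, Finset.prod_empty, mul_one, add_zero]
      exact hl q
  have hdml : DMLAt SF (pz l γ s n0 0) := by
    refine dml_core SF (pz l γ s n0 0) τ (fun i => ⟨_, hα i⟩) (fun i => rfl) 0 ?_
    intro n _
    apply isUnit_of_res_ne_zero
    set FO := overR (unitBall (PadicAlgCl p)) (SF (r := r) (K := K)) with hFO
    set w : Iz r K → unitBall (PadicAlgCl p) :=
      (pt FO)^[n] (fun i => ⟨τ (pz l γ s n0 0 i), hα i⟩) with hw
    have h5 := jac_map (res (PadicAlgCl p)) FO w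
    have h6 : (fun q => map (res (PadicAlgCl p)) (FO q)) = overR (ResF (PadicAlgCl p)) SF :=
      overR_map _ _
    rw [h6] at h5
    rw [RingHom.map_det, ← h5]
    have ht : ∀ k : ℕ, (pt FO)^[k] (fun i => (⟨τ (pz l γ s n0 0 i), hα i⟩ :
        unitBall (PadicAlgCl p))) zt = ((n0 + k : ℕ) : unitBall (PadicAlgCl p)) := by
      intro k
      induction k with
      | zero =>
        apply Subtype.ext
        simp [pz]
      | succ k ih =>
        rw [Function.iterate_succ_apply']
        simp only [pt, hFO, overR, SF, map_add, map_X, map_one, eval_X]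
        simp only [pt, hFO, overR] at ih
        rw [ih]
        push_cast
        ring
    have hcw : ∀ (k : ℕ) (q : Option (Fin r × Fin r) × Fin K),
        (pt FO)^[k] (fun i => (⟨τ (pz l γ s n0 0 i), hα i⟩ : unitBall (PadicAlgCl p)))
          (some (some (Sum.inl q))) = ⟨τ (γ q.1 q.2), hγ q.1 q.2⟩ := by
      intro k q
      induction k with
      | zero => rfl
      | succ k ih =>
        rw [Function.iterate_succ_apply']
        simp only [pt, hFO, overR, SF, map_X, eval_X]
        simp only [pt, hFO, overR] at ih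
        rw [ih]
    have hval : ∀ q, ((wl (fun k => w (zw q k)) (w zt) : unitBall (PadicAlgCl p)) :
        PadicAlgCl p) = τ (wl (γ q) ((n0 + n : ℕ) : ℂ)) := by
      intro q
      rw [wl_map τ]
      have h11 := wl_map (unitBall (PadicAlgCl p)).subtype (fun k => w (zw q k)) (w zt)
      rw [Subring.coe_subtype] at h11
      rw [h11]
      have h12 : ∀ k, ((w (zw q k) : unitBall (PadicAlgCl p)) : PadicAlgCl p) = τ (γ q k) :=
        fun k => congrArg Subtype.val (hcw n (q, k))
      have h13 : ((w zt : unitBall (PadicAlgCl p)) : PadicAlgCl p) =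
          τ ((n0 + n : ℕ) : ℂ) := by
        rw [hw, ht n, map_natCast]
        rfl
      simp only [h12, h13]
    have hres : ∀ q, eval (fun i => res (PadicAlgCl p) (w i)) (map (Int.castRingHom _) (pol q)) =
        res (PadicAlgCl p) (wl (fun k => w (zw q k)) (w zt)) := by
      intro q
      rw [eval_pol]
      exact (wl_map _ _ _).symm
    apply det_sys
    · rw [hres]
      intro h8
      have h9 := (res_eq_zero_iff _).1 h8
      rw [hval, ha] at h9
      exact lt_irrefl _ h9
    · intro h8
      have h7 : (Matrix.of fun i j : Fin r => eval (fun i => res (PadicAlgCl p) (w i))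
          (map (Int.castRingHom _) (pol (some (i, j))))) =
          (res (PadicAlgCl p)).mapMatrix (Matrix.of fun i j : Fin r =>
            wl (fun k => w (zw (some (i, j)) k)) (w zt)) := by
        ext i j
        simp only [Matrix.of_apply, RingHom.mapMatrix_apply, Matrix.map_apply]
        exact hres _
      rw [h7, ← RingHom.map_det] at h8
      have h9 := (res_eq_zero_iff _).1 h8
      have h10 : ((Matrix.of fun i j : Fin r =>
            wl (fun k => w (zw (some (i, j)) k)) (w zt)).det : PadicAlgCl p) =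
          τ (Matrix.of fun i j : Fin r => wl (γ (some (i, j))) ((n0 + n : ℕ) : ℂ)).det := by
        have h11 := RingHom.map_det (unitBall (PadicAlgCl p)).subtype
          (Matrix.of fun i j : Fin r => wl (fun k => w (zw (some (i, j)) k)) (w zt))
        rw [Subring.coe_subtype] at h11
        rw [h11, RingHom.map_det]
        congr 1
        ext i j
        simp only [Matrix.of_apply, RingHom.mapMatrix_apply, Matrix.map_apply]
        exact hval _
      rw [h10, hb] at h9
      exact lt_irrefl _ h9
  obtain ⟨T, hT⟩ := hdml {hs G}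
  have hne : ∀ n : ℕ, wl (γ none) (n : ℂ) ≠ 0 := by
    intro n h
    have h1 := ha n
    rw [h, map_zero, norm_zero] at h1
    exact zero_ne_one h1
  apply shift_set (fun n => eval (fun o => o.elim (n : ℂ) fun i => s i n) G = 0) n0 T
  rw [← hT]
  ext n
  simp only [Set.mem_ofPred_eq, Set.mem_singleton_iff, forall_eq]
  rw [orbit_sys l γ s n0 hrec n, eval_hs G (pz l γ s n0 n) (fun q => s q (n0 + n))
    (fun q => rfl)]
  have hz : pz l γ s n0 n zz ≠ 0 := by
    simp only [pz]
    exact mul_ne_zero hl0 (Finset.prod_ne_zero_iff.2 fun k _ => hne _)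
  have hit : pz l γ s n0 n zt = ((n0 + n : ℕ) : ℂ) := rfl
  rw [hit]
  constructor
  · intro h
    rw [h, mul_zero]
  · intro h
    exact (mul_eq_zero.1 h).resolve_left (pow_ne_zero _ hz)

end Pool.Agent.TH838.PT
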